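import Pool.Agent.H51.Maxi.Beat

open MeasureTheory Set FourierTransform
open scoped ENNReal symmDiff

namespace Pool.Agent.Results.MP_3fd3b2_an.EllipsoidsNotMax

/-- `Φ_{d,q}(E)`: the `L^q` norm of the Fourier transform of the indicator function of `E`
(with Mathlib's normalisation `𝓕 f ξ = ∫ exp (-2πi⟨x, ξ⟩) f x dx`). -/
noncomputable def Phi (d : ℕ) (q : ℝ) (E : Set (EuclideanSpace ℝ (Fin d))) : ℝ≥0∞ :=
  eLpNorm (𝓕 (E.indicator fun _ => (1 : ℂ))) (ENNReal.ofReal q) volume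

/-- `E` is a maximiser for `(d, q)`: it is Lebesgue measurable of measure one, and no Lebesgue
measurable set of measure one has a larger `Φ_{d,q}`. -/
def IsMaximiser (d : ℕ) (q : ℝ) (E : Set (EuclideanSpace ℝ (Fin d))) : Prop :=
  NullMeasurableSet E volume ∧ volume E = 1 ∧
    ∀ F : Set (EuclideanSpace ℝ (Fin d)), NullMeasurableSet F volume → volume F = 1 →
      Phi d q F ≤ Phi d q E

/-- `E` is, up to a null set, an ellipsoid: the image of the closed unit ball under an invertible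
affine map. -/
def IsEllipsoid (d : ℕ) (E : Set (EuclideanSpace ℝ (Fin d))) : Prop :=
  ∃ (A : EuclideanSpace ℝ (Fin d) ≃ₗ[ℝ] EuclideanSpace ℝ (Fin d)) (b : EuclideanSpace ℝ (Fin d)),
    E =ᵐ[volume] (fun x => A x + b) '' Metric.closedBall 0 1

theorem Phi_eq (d : ℕ) {q : ℝ} (hq : 0 < q) (E : Set (EuclideanSpace ℝ (Fin d))) :
    Phi d q E = (Pool.Agent.H51.Maxi.JE q E) ^ (1 / q) := by
  unfold Phi Pool.Agent.H51.Maxi.JE
  rw [eLpNorm_eq_lintegral_rpow_enorm_toReal (by simpa using hq) ENNReal.ofReal_ne_top,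
    ENNReal.toReal_ofReal hq.le]

/-- For every `d ≥ 2` and every `2 < q < 2 + 2/(d+1)` no ellipsoid of measure one is a maximiser;
moreover, arbitrarily close to it in measure there are sets of measure one with a larger
functional, so that it is not even a local maximiser. -/
theorem result (d : ℕ) (hd : 2 ≤ d) (q : ℝ) (hq : 2 < q) (hq' : q < 2 + 2 / ((d : ℝ) + 1))
    (E : Set (EuclideanSpace ℝ (Fin d))) (hE : IsEllipsoid d E) (hvol : volume E = 1) :
    ¬ IsMaximiser d q E ∧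
      ∀ ε : ℝ≥0∞, 0 < ε → ∃ F : Set (EuclideanSpace ℝ (Fin d)), MeasurableSet F ∧
        volume F = 1 ∧ volume (F ∆ E) < ε ∧ Phi d q E < Phi d q F := by
  obtain ⟨n, rfl⟩ : ∃ n, d = n + 1 := ⟨d - 1, by omega⟩
  have hn : 1 ≤ n := by omega
  have hq2 : ((n : ℝ) / 2 + 1) * (q - 2) < 1 := by
    push_cast at hq'
    have h1 : q - 2 < 2 / ((n : ℝ) + 1 + 1) := by linarith
    rw [lt_div_iff₀ (by positivity)] at h1
    linarith
  have key : ∀ ε : ℝ≥0∞, 0 < ε → ∃ F : Set (EuclideanSpace ℝ (Fin (n + 1))), MeasurableSet F ∧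
        volume F = 1 ∧ volume (F ∆ E) < ε ∧ Phi (n + 1) q E < Phi (n + 1) q F := by
    intro ε hε
    obtain ⟨A, b, hAb⟩ := hE
    have hvol' : volume ((fun x => A x + b) '' Metric.closedBall 0 1) = 1 := by
      rw [← measure_congr hAb, hvol]
    obtain ⟨F, hF1, hF2, hF3, hF4⟩ := Pool.Agent.H51.Maxi.beat hn hq hq2 A b hvol' hε
    refine ⟨F, hF1, hF2, ?_, ?_⟩
    · rw [measure_congr (Filter.EventuallyEq.rfl.symmDiff hAb)]
      exact hF3
    · rw [Phi_eq _ (by linarith), Phi_eq _ (by linarith), Pool.Agent.H51.Maxi.JE_congr hAb]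
      exact ENNReal.rpow_lt_rpow hF4 (by positivity)
  refine ⟨?_, key⟩
  rintro ⟨_, _, hmax⟩
  obtain ⟨F, hF1, hF2, _, hF4⟩ := key 1 one_pos
  exact absurd (hmax F hF1.nullMeasurableSet hF2) (not_le.2 hF4)

end Pool.Agent.Results.MP_3fd3b2_an.EllipsoidsNotMax
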