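import Pool.Agent.H82.Max.Main

open MeasureTheory Set FourierTransform
open scoped ENNReal symmDiff

namespace Pool.Agent.Results.MP_3fd3b2_an.LargeExponents

open Pool.Agent.H82.Max

/-- `Φ_{d,q}(E)`: the `L^q` norm of the Fourier transform of the indicator function of `E`
(with Mathlib's normalisation `𝓕 f ξ = ∫ exp (-2πi⟨x, ξ⟩) f x dx`). -/
noncomputable def Phi (d : ℕ) (q : ℝ) (E : Set (EuclideanSpace ℝ (Fin d))) : ℝ≥0∞ :=
  eLpNorm (𝓕 (E.indicator fun _ => (1 : ℂ))) (ENNReal.ofReal q) volume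

/-- `E` is a maximiser for `(d, q)`: it is Lebesgue measurable of measure one, and no Lebesgue
measurable set of measure one has a larger `Φ_{d,q}`. -/
def IsMaximiser (d : ℕ) (q : ℝ) (E : Set (EuclideanSpace ℝ (Fin d))) : Prop :=
  NullMeasurableSet E volume ∧ volume E = 1 ∧
    ∀ F : Set (EuclideanSpace ℝ (Fin d)), NullMeasurableSet F volume → volume F = 1 →
      Phi d q F ≤ Phi d q E

/-- `E` is, up to a null set, an ellipsoid: the image of the closed unit ball under an invertible
affine map. -/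
def IsEllipsoid (d : ℕ) (E : Set (EuclideanSpace ℝ (Fin d))) : Prop :=
  ∃ (A : EuclideanSpace ℝ (Fin d) ≃ₗ[ℝ] EuclideanSpace ℝ (Fin d)) (b : EuclideanSpace ℝ (Fin d)),
    E =ᵐ[volume] (fun x => A x + b) '' Metric.closedBall 0 1

theorem Phi_eq (d : ℕ) {q : ℝ} (hq : 0 < q) (E : Set (EuclideanSpace ℝ (Fin d))) :
    Phi d q E = (Pool.Agent.H51.Maxi.JE q E) ^ (1 / q) := by
  unfold Phi Pool.Agent.H51.Maxi.JE
  rw [eLpNorm_eq_lintegral_rpow_enorm_toReal (by simpa using hq) ENNReal.ofReal_ne_top,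
    ENNReal.toReal_ofReal hq.le]

theorem MM_congr {d : ℕ} {E F : Set (X d)} (h : E =ᵐ[volume] F) (p : ℝ) : MM p E = MM p F := by
  unfold MM
  rw [PP_congr h]

theorem MM_nonneg {d : ℕ} (p : ℝ) (E : Set (X d)) : 0 ≤ MM p E :=
  integral_nonneg fun ξ => Real.rpow_nonneg (PP_nonneg E ξ) p

/-- measurable representative -/
theorem exists_rep {d : ℕ} {E : Set (X d)} (h1 : NullMeasurableSet E volume) (h2 : volume E = 1) :
    ∃ E' : Set (X d), UnitVol E' ∧ E' =ᵐ[volume] E := by
  refine ⟨toMeasurable volume E, ⟨measurableSet_toMeasurable _ _, ?_⟩, h1.toMeasurable_ae_eq⟩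
  rw [measure_toMeasurable, h2]

/-- the unit ball and the ball of measure one -/
theorem smul_ball {d : ℕ} :
    Bl d = (fun x => (LinearEquiv.smulOfNeZero ℝ (X d) (rd d) (rd_pos d).ne') x + 0) ''
      Metric.closedBall (0 : X d) 1 := by
  have hr := rd_pos d
  ext y
  simp only [Bl, Metric.mem_closedBall, dist_zero_right, mem_image, add_zero,
    LinearEquiv.smulOfNeZero_apply]
  constructor
  · intro hy
    refine ⟨(rd d)⁻¹ • y, ?_, by rw [smul_smul, mul_inv_cancel₀ hr.ne', one_smul]⟩
    rw [norm_smul, norm_inv, Real.norm_of_nonneg hr.le, inv_mul_le_iff₀ hr]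
    simpa using hy
  · rintro ⟨x, hx, rfl⟩
    rw [norm_smul, Real.norm_of_nonneg hr.le]
    nlinarith

/-- For every dimension `d ≥ 1` there is `Q` such that for ALL `q ≥ Q` the maximisers are exactly
the ellipsoids of measure one. -/
theorem result (d : ℕ) (hd : 1 ≤ d) : ∃ Q : ℝ, 2 < Q ∧ ∀ q : ℝ, Q ≤ q →
    ∀ E : Set (EuclideanSpace ℝ (Fin d)),
      IsMaximiser d q E ↔ IsEllipsoid d E ∧ volume E = 1 := by
  have hd0 : 0 < d := hd
  obtain ⟨P, hP8, hP⟩ := main hd0
  refine ⟨2 * P, by linarith, fun q hq E => ?_⟩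
  set p : ℝ := q / 2 with hp
  have hpP : P ≤ p := by rw [hp]; linarith
  have hp1 : 1 ≤ p := by linarith
  have hq2 : 2 ≤ q := by linarith
  have hB : UnitVol (Bl d) := unitVol_Bl hd0
  -- the ball is optimal
  have hopt : ∀ F : Set (X d), UnitVol F → MM p F ≤ MM p (Bl d) := by
    intro F hF
    by_contra hc
    push Not at hc
    obtain ⟨A, b, hA, hAb⟩ := hP p hpP F hF hc.le
    have h1 := MM_image hF A hA b hp1
    rw [MM_congr hAb p] at h1
    linarith
  have hJ : ∀ F : Set (X d), UnitVol F → Phi d q F = (ENNReal.ofReal (MM p F)) ^ (1 / q) := by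
    intro F hF
    rw [Phi_eq d (by linarith), JE_eq hF hq2]
  have hJ' : ∀ F F' : Set (X d), F' =ᵐ[volume] F → Phi d q F' = Phi d q F := by
    intro F F' h
    rw [Phi_eq d (by linarith), Phi_eq d (by linarith), Pool.Agent.H51.Maxi.JE_congr h]
  have hle : ∀ F G : Set (X d), UnitVol F → UnitVol G →
      (Phi d q F ≤ Phi d q G ↔ MM p F ≤ MM p G) := by
    intro F G hF hG
    rw [hJ F hF, hJ G hG, ENNReal.rpow_le_rpow_iff (by positivity),
      ENNReal.ofReal_le_ofReal_iff (MM_nonneg _ _)]
  constructor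
  · rintro ⟨hE1, hE2, hmax⟩
    refine ⟨?_, hE2⟩
    obtain ⟨E', hE', hEE'⟩ := exists_rep hE1 hE2
    have h1 := hmax (Bl d) hB.meas.nullMeasurableSet hB.vol
    rw [← hJ' E E' hEE', hle _ _ hB hE'] at h1
    obtain ⟨A, b, hA, hAb⟩ := hP p hpP E' hE' h1
    -- `E' = A⁻¹ (B - b)` up to null sets
    refine ⟨(LinearEquiv.smulOfNeZero ℝ (X d) (rd d) (rd_pos d).ne').trans A.symm,
      -(A.symm b), ?_⟩
    refine hEE'.symm.trans ?_
    have hinv : ∀ S : Set (X d), S = (fun x => A.symm x + -(A.symm b)) '' ((fun x => A x + b) '' S) := by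
      intro S
      rw [image_image]
      simp
    have h2 : ((fun x => A.symm x + -(A.symm b)) '' ((fun x => A x + b) '' E') : Set (X d)) =ᵐ[volume]
        ((fun x => A.symm x + -(A.symm b)) '' (Bl d) : Set (X d)) := by
      rw [ae_eq_set] at hAb ⊢
      have hdiff : ∀ S T : Set (X d), volume (S \ T) = 0 →
          volume (((fun x => A.symm x + -(A.symm b)) '' S) \
            ((fun x => A.symm x + -(A.symm b)) '' T)) = 0 := by
        intro S T hST
        have hinj : Function.Injective fun x => A.symm x + -(A.symm b) := fun x y h =>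
          A.symm.injective (add_right_cancel h)
        rw [← image_sdiff hinj, Pool.Agent.H51.Maxi.vol_affine, hST, mul_zero]
      exact ⟨hdiff _ _ hAb.1, hdiff _ _ hAb.2⟩
    rw [← hinv E'] at h2
    refine h2.trans ?_
    rw [smul_ball, image_image]
    apply Filter.EventuallyEq.of_eq
    congr 1
    ext x
    simp
  · rintro ⟨⟨A, b, hAb⟩, hE2⟩
    set S : Set (X d) := (fun x => A x + b) '' Metric.closedBall 0 1 with hS
    have hSm : MeasurableSet S := by
      have : IsCompact S := by
        apply (isCompact_closedBall (0 : X d) 1).image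
        have : Continuous A := A.toLinearMap.continuous_of_finiteDimensional
        fun_prop
      exact this.measurableSet
    have hSv : volume S = 1 := by rw [← measure_congr hAb, hE2]
    have hSu : UnitVol S := ⟨hSm, hSv⟩
    -- `S` is an affine image of the ball of measure one
    set A' : X d ≃ₗ[ℝ] X d := (LinearEquiv.smulOfNeZero ℝ (X d) (rd d) (rd_pos d).ne').symm.trans A
      with hA'
    have hSB : S = (fun x => A' x + b) '' Bl d := by
      rw [smul_ball, image_image, hS]
      congr 1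
      ext1 x
      rw [add_zero, hA', LinearEquiv.trans_apply, LinearEquiv.symm_apply_apply]
    have hdet : |LinearMap.det (A' : X d →ₗ[ℝ] X d)| = 1 := by
      have h1 := Pool.Agent.H51.Maxi.vol_affine A' b (Bl d)
      rw [← hSB, hSv, hB.vol, mul_one] at h1
      have h2 := congrArg ENNReal.toReal h1
      rw [ENNReal.toReal_one, ENNReal.toReal_ofReal (abs_nonneg _)] at h2
      exact h2.symm
    have hMS : MM p S = MM p (Bl d) := by
      rw [hSB]
      exact MM_image hB A' hdet b hp1
    refine ⟨hSm.nullMeasurableSet.congr hAb.symm, hE2, fun F hF1 hF2 => ?_⟩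
    obtain ⟨F', hF', hFF'⟩ := exists_rep hF1 hF2
    rw [← hJ' F F' hFF', hJ' S E hAb, hle _ _ hF' hSu, hMS]
    exact hopt F' hF'

end Pool.Agent.Results.MP_3fd3b2_an.LargeExponents
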